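import Pool.Agent.Q247.MT.Ax

set_option autoImplicit false

/-!
# The modular topology of `ℓ^(p_n)` is not regular for any unbounded sequence of exponents

Q1 asks whether the modular topology of the variable exponent space `ℓ^(p_n)` is regular for every
sequence `p_n ≥ 1`. For bounded sequences this is known (the topology is that of the norm). Here: for
*every* unbounded sequence the space is not regular; a closed set and the origin cannot be
separated. So the space is regular if and only if the sequence is bounded.

Proof. Choose coordinates `q t`, `t` a finite sequence of natural numbers, with `p (q t)` large. We
use points with the coordinates `0`, `1/2`, `1` supported on chains of finite sequences. In a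
modular ball a far coordinate can change by `1/2`, but not by `1`. Let `F` consist of the points
`f_i` for `i = (N, s, σ)`: they are `1/2` on the finite chain `σ` of initial segments of `s` and `1`
on the nodes of code at least `N` of the branch `s, e(i), e(i), …`, where `e` is injective. `F` is
closed since two different branches do not fit into a chain. If `U` is a neighbourhood of `0` then
it contains all points with values `0`, `1/2` on a compact set of chains, and by the Baire category
theorem the modular radii of the balls about these points contained in `U` are uniform on a dense
subset of a cylinder. So `U` contains all points with finitely many ones of this cylinder, and some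
`f_i` is in the closure of `U`.
-/

namespace Pool.Agent.Results.MP_aae45c_an.NotRegular

open Pool.Agent.Q247.MT Filter Topology Set
open scoped ENNReal

/-- For every unbounded sequence of exponents `p_n ≥ 1` the space `ℓ^(p_n)` with its modular topology
is Hausdorff but not regular: there is a closed set `F` which does not contain the origin and meets
in every open neighbourhood `V ⊇ F` every open neighbourhood `U` of the origin, `U ∩ V ≠ ∅`. -/
theorem result (p : ℕ → ℝ) (hp : ∀ n, 1 ≤ p n) (hunb : ¬ BddAbove (range p)) :
    @T2Space (Space (rho p)) (modularTopology (rho p)) ∧
    ¬ @RegularSpace (Space (rho p)) (modularTopology (rho p)) ∧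
    ∃ F : Set (Space (rho p)), IsClosed[modularTopology (rho p)] F ∧
      ∃ x : Space (rho p), (x : ℕ → ℝ) = 0 ∧ x ∉ F ∧
        ∀ U V : Set (Space (rho p)), IsOpen[modularTopology (rho p)] U →
          IsOpen[modularTopology (rho p)] V → x ∈ U → F ⊆ V → (U ∩ V).Nonempty := by
  have hp0 : ∀ n, 0 < p n := fun n => by linarith [hp n]
  refine ⟨t2 hp, not_regularSpace hp0 hunb, ?_⟩
  obtain ⟨F, hF, x, h⟩ := not_regular hp0 hunb
  exact ⟨F, (isClosed_iff (rho p) F).2 hF, x, h⟩

end Pool.Agent.Results.MP_aae45c_an.NotRegular
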